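import Pool.Agent.TH700.PH.Final
import Pool.Agent.TH700.PH.Upper

/-!
# Weighted satisfiability of negation-free CNF, with a gap, is hard for read-once tensor networks

A tree tensor network `Net K V W` (`Pool/Agent/TH700/TN/Defs.lean`) has leaves that read one bit
each (with a vector in `K ^ W` for both values); an inner node combines the vectors of its two
children by an arbitrary bilinear map. It accepts the input `x` if a linear form of the vector of
the root is not zero. The field `K` and the weights are arbitrary, so there may be cancellations,
and the tree is arbitrary. The bond dimension is `card W`.

The inputs are the incidence bits of a negation-free formula in conjunctive normal form with `n`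
variables and `m` clauses (the class `Γ_{2,1}` of the problem, without negations). For every `g`
there is `D` such that for all `k ≥ D`, `n ≥ (D k) ^ 4` and `m ≥ D k log₂ n` networks with any
number of nodes, which read every bit at most once, accept all `k`-satisfiable formulas and reject
all formulas which have no satisfying assignment of weight at most `g k`, have bond dimension at
least `n ^ (k / D)`. This holds also for random networks which never accept a formula of the second
kind and accept every `k`-satisfiable formula with probability at least `2 ^ (- k)` (the
deterministic case is `R = Unit`, `μ = 0`).

Conversely a tree network over `ℚ` with `2 m n - 1` nodes and bond dimension `n.choose k + 1` reads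
every bit once and decides exactly whether the formula is `k`-satisfiable.

Proof: The nodes of the tree give a partition of the bits into `t` parts (`t` depends only on `g`),
each of them read between at most three nodes and none containing more than a fraction `O(1 / t)` of
the bits. Every part has rank at most the cube of the bond dimension. A pattern consists of `k`
variables (with repetitions) and a choice of one of them for each clause; take a random pattern for
each part, conditioned on the event that at most `k / 8` of the variables are columns that belong
to one part in more than a fraction `1 / (32 g)` of the rows. Suppose that a set `S` of `g k`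
variables satisfies the mixture. Either `S` contains more than `2 g k` of the `t k` chosen
variables, which has probability `n ^ (- g k / 2)`, or for every clause some part uses one of at
most `2 g k` positions; in at least half of the rows this fails with probability at least
`exp (- 4 g)` independently. On the other hand, by the replacement lemma (choose disjoint bases for
the parts, and replace the restrictions of a further pattern to the parts one after the other by
members of these bases) among any `t * rank + 1` accepted patterns some mixture of different ones is
accepted. Count all families of that many patterns.
-/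

set_option autoImplicit false

namespace Pool.Agent.Results.MP_91b64b_lc.GapMonotoneCnf

open Pool.Agent.TH700.TN Pool.Agent.TH700.PH

theorem result :
    (∀ g : ℕ, 1 ≤ g → ∃ D : ℕ, ∀ k n m : ℕ, D ≤ k → (D * k) ^ 4 ≤ n → n ^ (D * k) ≤ 2 ^ m →
      ∀ (μ : ℕ) (R : Type) [Fintype R] [Nonempty R] (K W : R → Type) [∀ ρ, Field (K ρ)]
        [∀ ρ, Fintype (W ρ)] (T : ∀ ρ, Net (K ρ) (Fin m × Fin n) (W ρ)) (a : ∀ ρ, W ρ → K ρ),
        μ ≤ k →
        (∀ ρ v, (T ρ).reads v ≤ 1) →
        (∀ ρ x, (∀ S : Finset (Fin n), S.card ≤ g * k → ¬ Sat x S) →
          (T ρ).value (a ρ) x = 0) →
        (∀ x, (∃ S : Finset (Fin n), S.card = k ∧ Sat x S) →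
          Nat.card R ≤ 2 ^ μ * Nat.card {ρ // (T ρ).value (a ρ) x ≠ 0}) →
        ∃ ρ, n ^ k ≤ Fintype.card (W ρ) ^ D) ∧
    (∀ m n k : ℕ, 1 ≤ m → 1 ≤ n →
      ∃ (T : Net ℚ (Fin m × Fin n) (Option {S : Finset (Fin n) // S.card = k}))
        (a : Option {S : Finset (Fin n) // S.card = k} → ℚ),
        (∀ v, T.reads v = 1) ∧ T.size = 2 * (m * n) - 1 ∧
          ∀ x, T.value a x ≠ 0 ↔ ∃ S : Finset (Fin n), S.card = k ∧ Sat x S) :=
  ⟨fun _ hg => main_sat hg, fun _ _ _ hm hn => upper_sat hm hn⟩

end Pool.Agent.Results.MP_91b64b_lc.GapMonotoneCnf
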